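import Pool.Agent.W209.KT.Stm

/-!
Project KT, part PIG: pigeonhole.
-/

set_option autoImplicit false

namespace Pool.Agent.W106.KT

open Pool.Agent.W209.KT

theorem pig : S_pig := by
  classical
  intro s p hp x m Q hm hQ
  have hne : ∀ j, NeZero (p j) := fun j => ⟨(hp j).ne'⟩
  have hmR : (0 : ℝ) < m := by exact_mod_cast hm
  have hcell : ∀ a : ℝ, ⌊(m : ℝ) * Int.fract a⌋₊ < m := by
    intro a
    rw [Nat.floor_lt (mul_nonneg hmR.le (Int.fract_nonneg a))]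
    calc (m : ℝ) * Int.fract a < m * 1 := mul_lt_mul_of_pos_left (Int.fract_lt_one a) hmR
      _ = m := mul_one _
  let f : Fin (Q + 1) → (Fin 10 → Fin m) × ((j : Fin 2) → ZMod (p j)) := fun q =>
    (fun l => ⟨⌊(m : ℝ) * Int.fract ((q.1 : ℝ) * x l)⌋₊, hcell _⟩,
     fun j => ((s j 0 * (q.1 : ℤ) + ∑ l : Fin 10, s j l.succ * ⌊(q.1 : ℝ) * x l⌋ : ℤ) : ZMod (p j)))
  have hcard : Fintype.card ((Fin 10 → Fin m) × ((j : Fin 2) → ZMod (p j))) <
      Fintype.card (Fin (Q + 1)) := by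
    rw [Fintype.card_prod, Fintype.card_pi, Fintype.card_pi, Fintype.card_fin]
    simp only [ZMod.card, Fintype.card_fin, Finset.prod_const, Finset.card_univ,
      Fin.prod_univ_two]
    omega
  have hmain : ∀ q1 q2 : Fin (Q + 1), q1 < q2 → f q1 = f q2 →
      ∃ (q : ℕ) (y : Fin 10 → ℤ), 0 < q ∧ q ≤ Q ∧ (∀ l, |(q : ℝ) * x l - y l| < 1 / m) ∧
      ∀ j, (p j : ℤ) ∣ s j 0 * q + ∑ l : Fin 10, s j l.succ * y l := by
    intro q1 q2 hlt heq
    have hlt' : q1.1 < q2.1 := hlt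
    refine ⟨q2.1 - q1.1, fun l => ⌊(q2.1 : ℝ) * x l⌋ - ⌊(q1.1 : ℝ) * x l⌋, by omega,
      by have := q2.2; omega, fun l => ?_, fun j => ?_⟩
    · have h1 := congrArg (fun z => (z.1 l).1) heq
      have h2 : ⌊(m : ℝ) * Int.fract ((q1.1 : ℝ) * x l)⌋₊ =
          ⌊(m : ℝ) * Int.fract ((q2.1 : ℝ) * x l)⌋₊ := h1
      set a := Int.fract ((q1.1 : ℝ) * x l) with ha
      set b := Int.fract ((q2.1 : ℝ) * x l) with hb
      have ha1 := Nat.floor_le (mul_nonneg hmR.le (Int.fract_nonneg ((q1.1 : ℝ) * x l)))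
      have ha2 := Nat.lt_floor_add_one ((m : ℝ) * Int.fract ((q1.1 : ℝ) * x l))
      have hb1 := Nat.floor_le (mul_nonneg hmR.le (Int.fract_nonneg ((q2.1 : ℝ) * x l)))
      have hb2 := Nat.lt_floor_add_one ((m : ℝ) * Int.fract ((q2.1 : ℝ) * x l))
      rw [← ha] at ha1 ha2
      rw [← hb] at hb1 hb2
      rw [h2] at ha1 ha2
      have h3 : |b - a| < 1 / m := by
        rw [abs_lt, lt_div_iff₀ hmR, neg_lt, lt_div_iff₀ hmR]
        constructor <;> nlinarith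
      have h4 : ((q2.1 - q1.1 : ℕ) : ℝ) * x l -
          ((⌊(q2.1 : ℝ) * x l⌋ - ⌊(q1.1 : ℝ) * x l⌋ : ℤ) : ℝ) = b - a := by
        rw [ha, hb, Int.fract, Int.fract, Nat.cast_sub hlt'.le]
        push_cast
        ring
      rw [h4]
      exact h3
    · have h1 := congrArg (fun z => z.2 j) heq
      have h2 := (ZMod.intCast_eq_intCast_iff_dvd_sub _ _ _).1 h1
      have h3 : s j 0 * ((q2.1 - q1.1 : ℕ) : ℤ) +
          ∑ l : Fin 10, s j l.succ * (⌊(q2.1 : ℝ) * x l⌋ - ⌊(q1.1 : ℝ) * x l⌋) =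
          s j 0 * (q2.1 : ℤ) + ∑ l : Fin 10, s j l.succ * ⌊(q2.1 : ℝ) * x l⌋ -
          (s j 0 * (q1.1 : ℤ) + ∑ l : Fin 10, s j l.succ * ⌊(q1.1 : ℝ) * x l⌋) := by
        simp only [mul_sub, Finset.sum_sub_distrib]
        rw [Nat.cast_sub hlt'.le]
        ring
      rw [h3]
      exact h2
  obtain ⟨q1, q2, hq, heq⟩ := Fintype.exists_ne_map_eq_of_card_lt f hcard
  rcases lt_or_gt_of_ne hq with h | h
  · exact hmain q1 q2 h heq
  · exact hmain q2 q1 h heq.symm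

end Pool.Agent.W106.KT
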